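import Pool.Agent.H752.GM.Stubs
import Pool.Agent.H620R2.GaugeR.EventR

/-! The oracles for which `NP` and `AM` are different. -/

namespace Pool.Agent.H752.GM

open Pool.Agent.NPC Pool.Agent.H620R2.Gauge Finset H568R2 Pool.Agent.H676

namespace NullAM

/-- the verifier accepts the sample `w` for some `y` -/
def Acc (M : Alg) (A : Oracle) (m : ℕ) (x w : List Bool) : Prop :=
  ∃ y : List Bool, y.length ≤ m ∧ M.out A (pairBits w (pairBits y x)) = some [true]

open Classical in
/-- the event that the majority of the samples is wrong for some input of length `n` -/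
def Ev1 (M : Alg) (p l u : Polynomial ℕ) (n N : ℕ) (x : List Bool) (a : Fin N → Bool) : Prop :=
  (2 * 2 ^ p.eval n ≤ 3 * Nat.card {w : Fin (p.eval n) → Bool //
      decide (Acc M (orc N a) (p.eval n) x (List.ofFn w)) = true} ∧
    Nat.card {i : Fin (2 * u.eval n) //
      decide (Acc M (orc N a) (p.eval n) x (smpl (orc N a) (l.eval n) n (p.eval n) i)) = true} <
      u.eval n) ∨
  (3 * Nat.card {w : Fin (p.eval n) → Bool //
      decide (Acc M (orc N a) (p.eval n) x (List.ofFn w)) = true} ≤ 2 ^ p.eval n ∧
    u.eval n ≤ Nat.card {i : Fin (2 * u.eval n) //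
      decide (Acc M (orc N a) (p.eval n) x (smpl (orc N a) (l.eval n) n (p.eval n) i)) = true})

/-- the event that the majority of the samples is wrong for some input of length `n` -/
def EvM (M : Alg) (p l u : Polynomial ℕ) (n N : ℕ) (a : Fin N → Bool) : Prop :=
  ∃ x : List Bool, x.length = n ∧ Ev1 M p l u n N x a

/-- the questions on inputs with random strings and certificates are not longer than this -/
def QB2 (M : Alg) (p l : Polynomial ℕ) : Prop :=
  ∀ (A : Oracle) (x w y : List Bool), w.length = p.eval x.length → y.length ≤ p.eval x.length →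
    ∃ Q : Finset (List Bool), (∀ q ∈ Q, q.length ≤ l.eval x.length) ∧
      ∀ A' : Oracle, (∀ q ∈ Q, A' q = A q) →
        M.out A' (pairBits w (pairBits y x)) = M.out A (pairBits w (pairBits y x))

theorem exists_QB2 (M : Alg) (p : Polynomial ℕ) : ∃ l : Polynomial ℕ, QB2 M p l := by
  obtain ⟨qb, hqb⟩ := Alg.out_local M
  refine ⟨qb.comp (2 * p + 1 + (2 * p + 1 + Polynomial.X)), fun A x w y hw hy => ?_⟩
  obtain ⟨Q, _, h1, h2⟩ := hqb A (pairBits w (pairBits y x))
  refine ⟨Q, fun q hq => ?_, h2⟩
  have h3 := h1 q hq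
  rw [length_pairBits, length_pairBits, hw] at h3
  refine h3.trans ?_
  rw [Polynomial.eval_comp]
  refine eval_mono _ ?_
  have h4 : (2 * p + 1 + (2 * p + 1 + Polynomial.X)).eval x.length =
      2 * p.eval x.length + 1 + (2 * p.eval x.length + 1 + x.length) := by simp
  rw [h4]
  omega

theorem QB2.congr {M : Alg} {p l : Polynomial ℕ} (h : QB2 M p l) {A A' : Oracle}
    {x w y : List Bool} (hw : w.length = p.eval x.length) (hy : y.length ≤ p.eval x.length)
    (hA : ∀ q : List Bool, q.length ≤ l.eval x.length → A' q = A q) :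
    M.out A' (pairBits w (pairBits y x)) = M.out A (pairBits w (pairBits y x)) := by
  obtain ⟨Q, h1, h2⟩ := h A x w y hw hy
  exact h2 A' fun q hq => hA q (h1 q hq)

theorem QB2.acc {M : Alg} {p l : Polynomial ℕ} (h : QB2 M p l) {A A' : Oracle}
    {x w : List Bool} (hw : w.length = p.eval x.length)
    (hA : ∀ q : List Bool, q.length ≤ l.eval x.length → A' q = A q) :
    Acc M A' (p.eval x.length) x w ↔ Acc M A (p.eval x.length) x w := by
  constructor
  · rintro ⟨y, hy, e⟩
    refine ⟨y, hy, ?_⟩
    rw [← h.congr hw hy hA]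
    exact e
  · rintro ⟨y, hy, e⟩
    refine ⟨y, hy, ?_⟩
    rw [h.congr hw hy hA]
    exact e

open Classical in
theorem evM_bound (hv : St_vote) {M : Alg} {p l u : Polynomial ℕ} (hl : QB2 M p l) {n N : ℕ}
    (hT : 2 * u.eval n * p.eval n ≤ 2 ^ n) (hN : 2 ^ (l.eval n + n + 2) ≤ N) :
    Ex unif (fun a : Fin N → Bool => if EvM M p l u n N a then (1 : ℝ) else 0) ≤
      2 ^ n * (8 / 9) ^ u.eval n := by
  -- positions of the samples
  have hlt : ∀ k : ℕ, idx (smp (l.eval n) n k) < N := by
    intro k
    have h1 := idx_lt (smp (l.eval n) n k)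
    rw [length_smp] at h1
    have h2 : 2 ^ (l.eval n + 1 + n + 1) = 2 ^ (l.eval n + n + 2) := by congr 1; ring
    omega
  let pos : Fin (2 * u.eval n) → Fin (p.eval n) → Fin N := fun i t =>
    ⟨idx (smp (l.eval n) n (i.val * p.eval n + t.val)), hlt _⟩
  have hkl : ∀ (i : Fin (2 * u.eval n)) (t : Fin (p.eval n)),
      i.val * p.eval n + t.val < 2 ^ n := by
    intro i t
    calc i.val * p.eval n + t.val < i.val * p.eval n + p.eval n := by have := t.2; omega
      _ = (i.val + 1) * p.eval n := by ring
      _ ≤ (2 * u.eval n) * p.eval n := Nat.mul_le_mul_right _ i.2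
      _ ≤ 2 ^ n := hT
  have hinj : Function.Injective (fun q : Fin (2 * u.eval n) × Fin (p.eval n) =>
      pos q.1 q.2) := by
    rintro ⟨i, t⟩ ⟨i', t'⟩ h
    have h1 : idx (smp (l.eval n) n (i.val * p.eval n + t.val)) =
        idx (smp (l.eval n) n (i'.val * p.eval n + t'.val)) := by
      simpa [pos] using h
    have h2 : smp (l.eval n) n (i.val * p.eval n + t.val) =
        smp (l.eval n) n (i'.val * p.eval n + t'.val) := by
      rw [← str_idx (smp (l.eval n) n (i.val * p.eval n + t.val)), h1, str_idx]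
    have h3 := smp_inj (hkl i t) (hkl i' t') h2
    have ht := t.2
    have ht' := t'.2
    have h4 : i.val = i'.val := by
      have e1 : (i.val * p.eval n + t.val) / p.eval n = i.val := by
        rw [Nat.mul_comm, Nat.mul_add_div (by omega), Nat.div_eq_of_lt ht]; simp
      have e2 : (i'.val * p.eval n + t'.val) / p.eval n = i'.val := by
        rw [Nat.mul_comm, Nat.mul_add_div (by omega), Nat.div_eq_of_lt ht']; simp
      rw [← e1, ← e2, h3]
    have h5 : t.val = t'.val := by
      rw [h4] at h3
      omega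
    exact Prod.ext (Fin.ext h4) (Fin.ext h5)
  have hlist : ∀ (a : Fin N → Bool) (i : Fin (2 * u.eval n)),
      List.ofFn (fun t : Fin (p.eval n) => a (pos i t)) =
      smpl (orc N a) (l.eval n) n (p.eval n) i := by
    intro a i
    unfold smpl
    apply List.ext_getElem
    · simp
    · intro t h1 h2
      simp only [List.getElem_ofFn, List.getElem_map, List.getElem_range, pos]
      unfold orc
      rw [dif_pos (hlt _)]
  -- the bound for one input
  have hone : ∀ x ∈ strsOf n, Ex unif (fun a : Fin N → Bool =>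
      if Ev1 M p l u n N x a then (1 : ℝ) else 0) ≤ (8 / 9) ^ u.eval n := by
    intro x hx
    have hxl : x.length = n := by
      obtain ⟨i, _, rfl⟩ := Finset.mem_image.1 hx
      rw [length_bitsOf]
    refine hv (Fin N) inferInstance inferInstance (p.eval n) (u.eval n) pos (fun a w =>
      decide (Acc M (orc N a) (p.eval n) x (List.ofFn w))) hinj ?_ _ ?_
    · intro a a' haa
      funext w
      have horc : ∀ q : List Bool, q.length ≤ l.eval n → orc N a' q = orc N a q := by
        intro q hq
        unfold orc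
        by_cases hqN : idx q < N
        · rw [dif_pos hqN, dif_pos hqN]
          refine (haa ⟨idx q, hqN⟩ fun i t h => ?_).symm
          have h2 : idx (smp (l.eval n) n (i.val * p.eval n + t.val)) = idx q := by
            simpa [pos] using h
          have h3 : smp (l.eval n) n (i.val * p.eval n + t.val) = q := by
            rw [← str_idx (smp (l.eval n) n (i.val * p.eval n + t.val)), h2, str_idx]
          have h4 := congrArg List.length h3
          rw [length_smp] at h4
          omega
        · rw [dif_neg hqN, dif_neg hqN]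
      have hgen : ∀ v : List Bool, v.length = p.eval n →
          (Acc M (orc N a') (p.eval n) x v ↔ Acc M (orc N a) (p.eval n) x v) := by
        intro v hv'
        have hacc := hl.acc (A := orc N a) (A' := orc N a') (x := x) (w := v)
          (by rw [hxl]; exact hv') (by
            intro q hq
            rw [hxl] at hq
            exact horc q hq)
        rw [hxl] at hacc
        exact hacc
      have h1 : Acc M (orc N a') (p.eval n) x (List.ofFn w) ↔
          Acc M (orc N a) (p.eval n) x (List.ofFn w) :=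
        hgen _ (by rw [List.length_ofFn])
      simp only [h1]
    · intro a ha
      simp only [hlist]
      exact ha
  have hU : Ex unif (fun a : Fin N → Bool => if EvM M p l u n N a then (1 : ℝ) else 0) ≤
      ∑ x ∈ strsOf n, Ex unif (fun a : Fin N → Bool =>
      if Ev1 M p l u n N x a then (1 : ℝ) else 0) := by
    rw [← Ex_sum]
    apply Ex_mono unif_nonneg
    intro a
    by_cases hE : EvM M p l u n N a
    · rw [if_pos hE]
      obtain ⟨x, hx, h1⟩ := hE
      refine le_trans ?_ (Finset.single_le_sum (f := fun x : List Bool =>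
        if Ev1 M p l u n N x a then (1 : ℝ) else 0) (fun x _ => by positivity)
        (by rw [← hx]; exact mem_strsOf x))
      show (1 : ℝ) ≤ if _ then 1 else 0
      rw [if_pos h1]
    · rw [if_neg hE]
      exact Finset.sum_nonneg fun x _ => by positivity
  refine hU.trans ((Finset.sum_le_sum hone).trans ?_)
  rw [Finset.sum_const, nsmul_eq_mul]
  apply mul_le_mul_of_nonneg_right _ (by positivity)
  have := card_strsOf n
  exact_mod_cast this

/-- the oracles for which the parameters are good and the language is not in `NP` -/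
def EasyM (θ : Alg × Polynomial ℕ) : Set Oracle :=
  {A | ∃ (V : List Bool → List Bool) (L : Set (List Bool)),
    (∀ x, θ.1.out A x = some (V x)) ∧ (∀ x, (x ∈ L → 2 / 3 ≤ exPr V (θ.2.eval x.length) x) ∧
      (x ∉ L → exPr V (θ.2.eval x.length) x ≤ 1 / 3)) ∧ ¬ IsNP A L}

theorem exPr_ge {V : List Bool → List Bool} {m : ℕ} {x : List Bool} (h : 2 / 3 ≤ exPr V m x) :
    2 * 2 ^ m ≤ 3 * Nat.card {r : Fin m → Bool // ∃ y : List Bool, y.length ≤ m ∧
      V (pairBits (List.ofFn r) (pairBits y x)) = [true]} := by
  unfold exPr at h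
  rw [le_div_iff₀ (by positivity)] at h
  have h1 : (2 : ℝ) * 2 ^ m ≤
      3 * (Nat.card {r : Fin m → Bool // ∃ y : List Bool, y.length ≤ m ∧
      V (pairBits (List.ofFn r) (pairBits y x)) = [true]} : ℝ) := by
    linarith
  exact_mod_cast h1

theorem exPr_le {V : List Bool → List Bool} {m : ℕ} {x : List Bool} (h : exPr V m x ≤ 1 / 3) :
    3 * Nat.card {r : Fin m → Bool // ∃ y : List Bool, y.length ≤ m ∧
      V (pairBits (List.ofFn r) (pairBits y x)) = [true]} ≤ 2 ^ m := by
  unfold exPr at h
  rw [div_le_iff₀ (by positivity)] at h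
  have h1 : 3 * (Nat.card {r : Fin m → Bool // ∃ y : List Bool, y.length ≤ m ∧
      V (pairBits (List.ofFn r) (pairBits y x)) = [true]} : ℝ) ≤ (2 : ℝ) ^ m := by
    linarith
  exact_mod_cast h1

theorem ev_of_easyM (hs : St_sampler) (θ : Alg × Polynomial ℕ) {l u : Polynomial ℕ}
    (hl : QB2 θ.1 θ.2 l) (n₁ : ℕ)
    {A : Oracle} (hA : A ∈ EasyM θ) (N : ℕ → ℕ) (hN : ∀ n ≥ n₁, 2 ^ (l.eval n + n + 2) ≤ N n) :
    ∃ n ≥ n₁, EvM θ.1 θ.2 l u n (N n) (pre (N n) A) := by
  classical
  obtain ⟨V, L, hV, hL, hnP⟩ := hA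
  by_contra hcon
  push Not at hcon
  apply hnP
  have hVfp : IsFP A V := ⟨θ.1, hV⟩
  refine hs A V θ.2 l u L n₁ hVfp fun x hx => ?_
  have hno := hcon x.length hx
  have hNx := hN x.length hx
  have hsame : ∀ w : List Bool, w.length = θ.2.eval x.length →
      (Acc θ.1 (orc (N x.length) (pre (N x.length) A)) (θ.2.eval x.length) x w ↔
        ∃ y : List Bool, y.length ≤ θ.2.eval x.length ∧
          V (pairBits w (pairBits y x)) = [true]) := by
    intro w hw
    have h1 := hl.acc (A := A) (A' := orc (N x.length) (pre (N x.length) A)) (x := x) hw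
      (fun q hq => by
        apply orc_pre
        have h1 := idx_lt q
        have h2 : 2 ^ (q.length + 1) ≤ 2 ^ (l.eval x.length + x.length + 2) :=
          Nat.pow_le_pow_right (by norm_num) (by omega)
        omega)
    rw [h1]
    unfold Acc
    simp only [hV, Option.some.injEq]
  have hsmp : ∀ i, smpl (orc (N x.length) (pre (N x.length) A)) (l.eval x.length) x.length
      (θ.2.eval x.length) i = smpl A (l.eval x.length) x.length (θ.2.eval x.length) i := by
    intro i
    unfold smpl
    refine List.map_congr_left fun t _ => ?_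
    apply orc_pre
    have h1 := idx_lt (smp (l.eval x.length) x.length (i * θ.2.eval x.length + t))
    rw [length_smp] at h1
    have h2 : 2 ^ (l.eval x.length + 1 + x.length + 1) = 2 ^ (l.eval x.length + x.length + 2) := by
      congr 1; ring
    omega
  have hlen : ∀ i, (smpl A (l.eval x.length) x.length (θ.2.eval x.length) i).length =
      θ.2.eval x.length := by
    intro i
    unfold smpl
    rw [List.length_map, List.length_range]
  have hno1 : ¬ Ev1 θ.1 θ.2 l u x.length (N x.length) x (pre (N x.length) A) :=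
    fun h => hno ⟨x, rfl, h⟩
  unfold Ev1 at hno1
  have e1 : ∀ w : Fin (θ.2.eval x.length) → Bool,
      (Acc θ.1 (orc (N x.length) (pre (N x.length) A)) (θ.2.eval x.length) x (List.ofFn w) ↔
        ∃ y : List Bool, y.length ≤ θ.2.eval x.length ∧
          V (pairBits (List.ofFn w) (pairBits y x)) = [true]) :=
    fun w => hsame _ List.length_ofFn
  have e2 : ∀ i : ℕ,
      (Acc θ.1 (orc (N x.length) (pre (N x.length) A)) (θ.2.eval x.length) x
        (smpl A (l.eval x.length) x.length (θ.2.eval x.length) i) ↔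
        ∃ y : List Bool, y.length ≤ θ.2.eval x.length ∧
          V (pairBits (smpl A (l.eval x.length) x.length (θ.2.eval x.length) i)
            (pairBits y x)) = [true]) :=
    fun i => hsame _ (hlen i)
  simp only [hsmp, decide_eq_true_eq, e1, e2] at hno1
  push Not at hno1
  obtain ⟨h1, h2⟩ := hno1
  constructor
  · intro hxL
    exact h1 (exPr_ge ((hL x).1 hxL))
  · intro h
    by_contra hxL
    exact absurd h (not_le.2 (h2 (exPr_le ((hL x).2 hxL))))

theorem pow_bound (T : ℕ) : (8 / 9 : ℝ) ^ (6 * T) ≤ (1 / 2) ^ T := by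
  rw [pow_mul]
  exact pow_le_pow_left₀ (by positivity) (by norm_num) T

end NullAM

open NullAM

theorem t_nullAM (h11 : St_vote) (h12 : St_sampler) : St_nullAM := by
  intro f hf
  have hcP : Countable (Polynomial ℕ) := by
    have : Function.Injective (fun p : Polynomial ℕ => (p.toFinsupp.coeff : ℕ →₀ ℕ)) := by
      intro p q h
      ext n
      exact DFunLike.congr_fun h n
    exact this.countable
  refine (null_iUnion (f := f) EasyM fun θ => ?_).mono fun A hA => ?_
  · obtain ⟨C, hC⟩ := hf
    obtain ⟨l, hl⟩ := exists_QB2 θ.1 θ.2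
    obtain ⟨T, n₀, hT⟩ := asymR C (l + Polynomial.X + 2) (12 * θ.2) (by intro n; simp; omega)
      f hC
    have hev : ∀ n, (l + Polynomial.X + 2).eval n = l.eval n + n + 2 := by intro n; simp
    have hev2 : ∀ n, (12 * θ.2).eval n = 12 * θ.2.eval n := by intro n; simp
    have hev3 : ∀ n, (6 * T).eval n = 6 * T.eval n := by intro n; simp
    simp only [hev, hev2] at hT
    intro δ hδ
    -- the start
    obtain ⟨m, hm⟩ := exists_pow_lt_of_lt_one (show (0 : ℝ) < δ / 2 by positivity)
      (show (1 / 2 : ℝ) < 1 by norm_num)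
    set n₁ := max n₀ m with hn₁
    have hn₁' : (1 / 2 : ℝ) ^ n₁ < δ / 2 :=
      lt_of_le_of_lt (pow_le_pow_of_le_one (by norm_num) (by norm_num) (le_max_right _ _)) hm
    choose! hT1 N hN1 hN2 using hT
    have hcov : ∀ n : ℕ, ∃ S : Set (List Bool), n₁ ≤ n →
        (∀ A ∈ {A : Oracle | EvM θ.1 θ.2 l (6 * T) n (N n) (pre (N n) A)},
          ∃ σ ∈ S, Extends A σ) ∧
        ∑' σ : S, ENNReal.ofReal (2 ^ (f σ.1.length - σ.1.length)) ≤
          ENNReal.ofReal ((1 / 2) ^ n) := by
      intro n
      by_cases hn : n₁ ≤ n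
      · have hn0 : n₀ ≤ n := le_trans (le_max_left _ _) hn
        classical
        have hb := evM_bound (u := 6 * T) h11 hl (n := n) (N := N n) (by
          rw [hev3]
          have := hT1 n hn0
          nlinarith) (hN1 n hn0)
        rw [hev3] at hb
        have hb2 : (2 : ℝ) ^ n * (8 / 9) ^ (6 * T.eval n) ≤ 2 ^ n * (1 / 2) ^ T.eval n :=
          mul_le_mul_of_nonneg_left (pow_bound _) (by positivity)
        obtain ⟨S, hS, hs⟩ := cover_of_event (EvM θ.1 θ.2 l (6 * T) n (N n))
          {A : Oracle | EvM θ.1 θ.2 l (6 * T) n (N n) (pre (N n) A)} (fun A hA => hA) f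
          ((1 / 2) ^ n)
          ((mul_le_mul_of_nonneg_right (hb.trans hb2) (by positivity)).trans (hN2 n hn0))
        exact ⟨S, fun _ => ⟨hS, hs⟩⟩
      · exact ⟨∅, fun h => absurd h hn⟩
    choose S hS using hcov
    refine ⟨⋃ k : ℕ, S (n₁ + k), ?_, ?_⟩
    · intro A hA
      obtain ⟨n, hn, hE⟩ := ev_of_easyM h12 θ (u := 6 * T) hl n₁ hA N
        (fun n hn => hN1 n (le_trans (le_max_left _ _) hn))
      obtain ⟨σ, hσ, hE'⟩ := (hS n hn).1 A hE
      refine ⟨σ, Set.mem_iUnion.2 ⟨n - n₁, ?_⟩, hE'⟩
      rw [Nat.add_sub_cancel' hn]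
      exact hσ
    · refine (ENNReal.tsum_iUnion_le_tsum (fun σ : List Bool =>
        ENNReal.ofReal (2 ^ (f σ.length - σ.length))) (fun k => S (n₁ + k))).trans ?_
      refine (ENNReal.tsum_le_tsum fun k => (hS (n₁ + k) (Nat.le_add_right _ _)).2).trans ?_
      have hsum : Summable (fun k : ℕ => (1 / 2 : ℝ) ^ (n₁ + k)) := by
        simp only [pow_add]
        exact summable_geometric_two.mul_left _
      rw [← ENNReal.ofReal_tsum_of_nonneg (fun k => by positivity) hsum]
      apply ENNReal.ofReal_le_ofReal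
      simp only [pow_add]
      rw [tsum_mul_left, tsum_geometric_two]
      linarith
  · obtain ⟨L, ⟨V, p, ⟨M, hM⟩, hx⟩, hnP⟩ := hA
    exact Set.mem_iUnion.2 ⟨(M, p), V, L, hM, hx, hnP⟩

end Pool.Agent.H752.GM
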